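import Mathlib
import Pool.Agent.H99.TN.Main

/-!
MP_041d78_al, Q2: the revised 2n conjecture is false for zero-nonzero patterns.
For every sufficiently large n congruent to 2 modulo 4 there is an irreducible (one strong
component) spectrally arbitrary zero-nonzero pattern of order n with exactly 2n-1 nonzero
entries.
-/

namespace Pool.Agent.Results.MP_041d78_al.ZnzCounterexample

theorem result :
    ∃ N : ℕ, ∀ n : ℕ, N ≤ n → n % 4 = 2 →
      ∃ P : Fin n → Fin n → Prop,
        (∀ p : Polynomial ℝ, p.Monic → p.natDegree = n →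
          ∃ A : Matrix (Fin n) (Fin n) ℝ,
            (∀ i j, A i j ≠ 0 ↔ P i j) ∧ A.charpoly = p) ∧
        (∀ i j, Relation.ReflTransGen P i j) ∧
        Set.ncard (Set.range (fun i : Fin n =>
          {j : Fin n | Relation.ReflTransGen P i j ∧ Relation.ReflTransGen P j i})) = 1 ∧
        Set.ncard {q : Fin n × Fin n | P q.1 q.2} = 2 * n - 1 := by
  obtain ⟨N, hN⟩ := Pool.Agent.H99.TN.main_real
  refine ⟨N, fun n hn h4 => ?_⟩
  obtain ⟨P, h1, h2, h3⟩ := hN n hn h4
  refine ⟨P, h1, h2, ?_, h3⟩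
  have hn0 : 0 < n := by omega
  rw [Set.ncard_eq_one]
  refine ⟨Set.univ, ?_⟩
  ext s
  simp only [Set.mem_range, Set.mem_singleton_iff]
  constructor
  · rintro ⟨i, rfl⟩
    ext j
    simp [h2 i j, h2 j i]
  · rintro rfl
    refine ⟨⟨0, hn0⟩, ?_⟩
    ext j
    simp [h2 ⟨0, hn0⟩ j, h2 j ⟨0, hn0⟩]

end Pool.Agent.Results.MP_041d78_al.ZnzCounterexample
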